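import Pool.Agent.KS6_46.BL.Hoelder

/-!
# Lipschitz Baumgartner axioms fail in every perfect Polish space

Both `BA_Lip(ω^ω)` and `BA_Lip(2^ω)` are false, hence each of them implies `2^ℵ₀ = 2^ℵ₁` and
`add(N) > ℵ₁`. This is a special case of a theorem on all complete separable metric spaces without
isolated points, all countable families of moduli of continuity, countable-to-one functions, and
functions which have the modulus only on the pieces of a countable cover.
-/

set_option autoImplicit false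

open Set Cardinal

namespace Pool.Agent.Results.MP_84ba36_lc.PerfectPolish

/-- `A ⊆ Z` is `ℵ₁`-dense: `|A ∩ U| = ℵ₁` for every nonempty open set `U`. -/
def AlephOneDense {Z : Type} [TopologicalSpace Z] (A : Set Z) : Prop :=
  ∀ U : Set Z, IsOpen U → U.Nonempty → #(A ∩ U : Set Z) = ℵ₁

/-- `f` is Lipschitz with constant `1`: `f x` and `f y` agree below `k` if `x` and `y` do. -/
def IsLip {α : Type} (f : (ℕ → α) → ℕ → α) : Prop :=
  ∀ (k : ℕ) (x y : ℕ → α), (∀ i < k, x i = y i) → ∀ i < k, f x i = f y i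

/-- The axiom `BA_Lip(Z)` for the space `Z` of all functions from `ω` to the discrete space `α`:
for all `ℵ₁`-dense `A, B ⊆ Z` there is a Lipschitz function `f : Z → Z` such that the restriction of
`f` to `A` is injective and `f[A] ⊆ B`. -/
def BALip (α : Type) [TopologicalSpace α] : Prop :=
  ∀ A B : Set (ℕ → α), AlephOneDense A → AlephOneDense B →
    ∃ f : (ℕ → α) → ℕ → α, IsLip f ∧ InjOn f A ∧ f '' A ⊆ B

/-- Every union of at most `ℵ₁` many Lebesgue null sets of reals is a null set, that is,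
`add(N) > ℵ₁`. -/
def AddNullGtAlephOne : Prop :=
  ∀ S : Set (Set ℝ), #S ≤ ℵ₁ → (∀ E ∈ S, MeasureTheory.volume E = 0) →
    MeasureTheory.volume (⋃₀ S) = 0

/-- At small scales `f` has the modulus of continuity `h` on the set `S`: for all small `ε > 0`,
points of `S` at distance less than `h ε` have images at distance less than `ε`. -/
def HasModulus {X Y : Type} [MetricSpace X] [MetricSpace Y] (h : ℝ → ℝ) (f : X → Y) (S : Set X) :
    Prop :=
  ∃ ε₀ : ℝ, 0 < ε₀ ∧ ∀ ε : ℝ, 0 < ε → ε < ε₀ → ∀ x ∈ S, ∀ y ∈ S, dist x y < h ε →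
    dist (f x) (f y) < ε

/-- `f` is a Hölder function on the set `S`, with any exponent `a > 0` and any constant `C`. -/
def IsHoelder {X Y : Type} [MetricSpace X] [MetricSpace Y] (f : X → Y) (S : Set X) : Prop :=
  ∃ C a : ℝ, 0 < a ∧ ∀ x ∈ S, ∀ y ∈ S, dist (f x) (f y) ≤ C * dist x y ^ a

/-- Both `BA_Lip(ω^ω)` and `BA_Lip(2^ω)` are false; so each of them implies `2^ℵ₀ = 2^ℵ₁` and
`add(N) > ℵ₁`. In fact, let `X` and `Y` be any nonempty complete separable metric spaces without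
isolated points. For every countable family `H` of moduli of continuity there are `ℵ₁`-dense
`A ⊆ X` and `B ⊆ Y` such that every function from `X` to `Y` which maps `A` into `B` and has a
modulus in `H` on each piece of a countable cover of `A` has an uncountable fibre in `A`. The same
is true for the functions which are Hölder (for example Lipschitz) on each piece of a countable
cover of `A`; in particular for the real line. -/
theorem result :
    (¬ BALip ℕ ∧ ¬ BALip Bool) ∧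
    (BALip ℕ ∨ BALip Bool → (2 : Cardinal.{0}) ^ ℵ₀ = 2 ^ ℵ₁ ∧ AddNullGtAlephOne) ∧
    (∀ (X Y : Type) [MetricSpace X] [CompleteSpace X] [PerfectSpace X]
      [SecondCountableTopology X] [Nonempty X] [MetricSpace Y] [CompleteSpace Y] [PerfectSpace Y]
      [SecondCountableTopology Y] [Nonempty Y] (H : ℕ → ℝ → ℝ),
      (∀ n ε, 0 < ε → 0 < H n ε) →
      ∃ (A : Set X) (B : Set Y), AlephOneDense A ∧ AlephOneDense B ∧
        ∀ f : X → Y, f '' A ⊆ B →
          (∃ S : ℕ → Set X, A ⊆ ⋃ n, S n ∧ ∀ n, ∃ m, HasModulus (H m) f (S n)) →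
          ∃ y ∈ B, ¬ {x ∈ A | f x = y}.Countable) ∧
    (∀ (X Y : Type) [MetricSpace X] [CompleteSpace X] [PerfectSpace X]
      [SecondCountableTopology X] [Nonempty X] [MetricSpace Y] [CompleteSpace Y] [PerfectSpace Y]
      [SecondCountableTopology Y] [Nonempty Y],
      ∃ (A : Set X) (B : Set Y), AlephOneDense A ∧ AlephOneDense B ∧
        ∀ f : X → Y, f '' A ⊆ B →
          (∃ S : ℕ → Set X, A ⊆ ⋃ n, S n ∧ ∀ n, IsHoelder f (S n)) →
          ∃ y ∈ B, ¬ {x ∈ A | f x = y}.Countable) ∧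
    (∃ A B : Set ℝ, AlephOneDense A ∧ AlephOneDense B ∧
      ∀ f : ℝ → ℝ, f '' A ⊆ B →
        (∃ S : ℕ → Set ℝ, A ⊆ ⋃ n, S n ∧ ∀ n, IsHoelder f (S n)) →
        ∃ y ∈ B, ¬ {x ∈ A | f x = y}.Countable) := by
  have h1 : ¬ BALip ℕ := fun hBA => by
    obtain ⟨A, B, hA, hB, hAB⟩ := Pool.Agent.N642.Lip.main (α := ℕ) fun k => k
    obtain ⟨f, hf, h1, h2⟩ := hBA A B hA hB
    exact hAB f ⟨0, fun k _ => hf k⟩ ⟨h1, h2⟩
  have h2 : ¬ BALip Bool := fun hBA => by
    obtain ⟨A, B, hA, hB, hAB⟩ := Pool.Agent.N642.Lip.main (α := Bool) fun k => k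
    obtain ⟨f, hf, h1, h2⟩ := hBA A B hA hB
    exact hAB f ⟨0, fun k _ => hf k⟩ ⟨h1, h2⟩
  have h3 : ∀ (X Y : Type) [MetricSpace X] [CompleteSpace X] [PerfectSpace X]
      [SecondCountableTopology X] [Nonempty X] [MetricSpace Y] [CompleteSpace Y] [PerfectSpace Y]
      [SecondCountableTopology Y] [Nonempty Y] (H : ℕ → ℝ → ℝ),
      (∀ n ε, 0 < ε → 0 < H n ε) →
      ∃ (A : Set X) (B : Set Y), AlephOneDense A ∧ AlephOneDense B ∧
        ∀ f : X → Y, f '' A ⊆ B →
          (∃ S : ℕ → Set X, A ⊆ ⋃ n, S n ∧ ∀ n, ∃ m, HasModulus (H m) f (S n)) →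
          ∃ y ∈ B, ¬ {x ∈ A | f x = y}.Countable := by
    intro X Y _ _ _ _ _ _ _ _ _ _ H hH
    obtain ⟨A, B, hA, hB, hAB⟩ := Pool.Agent.KS6_46.BL.main_family X Y H hH
    refine ⟨A, B, hA, hB, fun f hf hS => ?_⟩
    by_contra hcon
    push Not at hcon
    exact hAB f hf hcon hS
  have h4 : ∀ (X Y : Type) [MetricSpace X] [CompleteSpace X] [PerfectSpace X]
      [SecondCountableTopology X] [Nonempty X] [MetricSpace Y] [CompleteSpace Y] [PerfectSpace Y]
      [SecondCountableTopology Y] [Nonempty Y],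
      ∃ (A : Set X) (B : Set Y), AlephOneDense A ∧ AlephOneDense B ∧
        ∀ f : X → Y, f '' A ⊆ B →
          (∃ S : ℕ → Set X, A ⊆ ⋃ n, S n ∧ ∀ n, IsHoelder f (S n)) →
          ∃ y ∈ B, ¬ {x ∈ A | f x = y}.Countable := by
    intro X Y _ _ _ _ _ _ _ _ _ _
    obtain ⟨A, B, hA, hB, hAB⟩ := h3 X Y (fun _ ε => Real.exp (-1 / ε))
      (fun _ ε _ => Real.exp_pos _)
    refine ⟨A, B, hA, hB, fun f hf hS => hAB f hf ?_⟩
    obtain ⟨S, hS, hSH⟩ := hS
    refine ⟨S, hS, fun n => ⟨0, ?_⟩⟩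
    obtain ⟨C, a, ha, hCa⟩ := hSH n
    exact Pool.Agent.KS6_46.BL.hoelder_hasMod ha hCa
  refine ⟨⟨h1, h2⟩, fun h => absurd h (not_or.mpr ⟨h1, h2⟩), h3, h4, ?_⟩
  have : PerfectSpace ℝ := perfectSpace_of_module ℝ ℝ
  exact h4 ℝ ℝ

end Pool.Agent.Results.MP_84ba36_lc.PerfectPolish
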